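import Pool.Agent.Helper42.PW.Goals3
import Pool.Agent.Helper42.RS.RAM

/-!
# Project W (MP_fc6b1e_nt): packet W_RM1

The valuations of the norms of elements `y` with `γ(y)/y` a unit, without a condition on `a`.
-/

set_option autoImplicit false

namespace Pool.Agent.Helper58.PW

open NumberField Polynomial Module IsDedekindDomain
open _root_.Pool.Agent.Helper42.RS
open _root_.Pool.Agent.Helper42.PW
open _root_.Pool.Agent.Helper51.RP

section val

variable {M H : Type} [Field M] [NumberField M] [Field H] [NumberField H] [Algebra M H]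

/-- The claim at the primes where `s ^ p` is a limit of `p`-th powers of elements of `M`. -/
theorem claimC {p : ℕ} (hp : p.Prime) (hd : finrank M H = p) (ε : M) (hε : IsPrimitiveRoot ε p)
    (s : H) (hs : s ≠ 0) (γ : H ≃ₐ[M] H)
    (hγ : γ s = algebraMap M H ε * s)
    (w : HeightOneSpectrum (𝓞 H))
    (hVs : w.valuation H s ≤ 1)
    (hseq : ∀ N : ℕ, ∃ r : M, w.valuation H (algebraMap M H r) ≤ 1 ∧
      w.valuation H (s ^ p - algebraMap M H r ^ p) ≤ WithZero.exp (-(N : ℤ)))
    (y : H) (hy : y ≠ 0) :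
    ∃ c : M, w.valuation H (algebraMap M H c) = w.valuation H y := by
  set V := w.valuation H with hV
  obtain ⟨m, -, hm2⟩ := resolvent hp hd ε hε s hs γ hγ y
  have hp0 : (p : H) ≠ 0 := Nat.cast_ne_zero.2 hp.ne_zero
  have hyv : V y ≠ 0 := (Valuation.ne_zero_iff _).2 hy
  have hm3 : y = ∑ i ∈ Finset.range p, algebraMap M H (m i / p) * s ^ i := by
    have h1 : (p : H) * y = p * ∑ i ∈ Finset.range p, algebraMap M H (m i / p) * s ^ i := by
      rw [← hm2, Finset.mul_sum]
      refine Finset.sum_congr rfl fun i _ => ?_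
      rw [map_div₀, map_natCast]
      field_simp
    exact mul_left_cancel₀ hp0 h1
  -- a large exponent
  have hk : ∀ i, ∃ k : ℕ, ∀ n : ℕ, k ≤ n →
      V (algebraMap M H (m i / p)) * WithZero.exp (-(n : ℤ)) < V y := by
    intro i
    rcases eq_or_ne (V (algebraMap M H (m i / p))) 0 with h0 | h0
    · exact ⟨0, fun n _ => by rw [h0, zero_mul]; exact zero_lt_iff.2 hyv⟩
    · obtain ⟨k, hk⟩ := WithZero.exists_exp_neg_natCast_lt (mul_ne_zero (inv_ne_zero h0) hyv)
      refine ⟨k, fun n hn => ?_⟩
      have h1 : (WithZero.exp (-(n : ℤ)) : WithZero (Multiplicative ℤ)) ≤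
          WithZero.exp (-(k : ℤ)) := by
        rw [WithZero.exp_le_exp]
        omega
      have h2 := lt_of_le_of_lt h1 hk
      calc V (algebraMap M H (m i / p)) * WithZero.exp (-(n : ℤ))
          < V (algebraMap M H (m i / p)) * ((V (algebraMap M H (m i / p)))⁻¹ * V y) :=
            mul_lt_mul_of_pos_left h2 (zero_lt_iff.2 h0)
        _ = V y := by rw [← mul_assoc, mul_inv_cancel₀ h0, one_mul]
  choose k hk using hk
  set n := ∑ i ∈ Finset.range p, k i with hn
  have hkn : ∀ i ∈ Finset.range p, k i ≤ n := fun i hi =>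
    Finset.single_le_sum (f := k) (fun _ _ => Nat.zero_le _) hi
  obtain ⟨r, hVr, hr⟩ := hseq (n * p)
  set t : H := algebraMap M H r with ht
  have hεH : IsPrimitiveRoot (algebraMap M H ε) p := hε.map_of_injective (algebraMap M H).injective
  have hprod := hεH.pow_sub_pow_eq_prod_sub_mul s t hp.pos
  have hVst : V (s ^ p - t ^ p) ≤ (WithZero.exp (-(n : ℤ))) ^ p := by
    refine hr.trans (le_of_eq ?_)
    rw [← WithZero.exp_nsmul]
    congr 1
    simp only [nsmul_eq_mul]
    push_cast
    ring
  have hex : ∃ μ ∈ Polynomial.nthRootsFinset p (1 : H), V (s - μ * t) ≤ WithZero.exp (-(n : ℤ)) := by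
    by_contra hcon
    push Not at hcon
    rw [hprod, map_prod] at hVst
    have hcard : (Polynomial.nthRootsFinset p (1 : H)).card = p := hεH.card_nthRootsFinset
    have h1 : (WithZero.exp (-(n : ℤ))) ^ p <
        ∏ μ ∈ Polynomial.nthRootsFinset p (1 : H), V (s - μ * t) := by
      calc (WithZero.exp (-(n : ℤ))) ^ p
          = ∏ μ ∈ Polynomial.nthRootsFinset p (1 : H),
              (WithZero.exp (-(n : ℤ)) : WithZero (Multiplicative ℤ)) := by
            rw [Finset.prod_const, hcard]
        _ < _ := by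
            refine Finset.prod_lt_prod_of_nonempty (fun i _ => ?_) hcon ?_
            · exact WithZero.exp_pos
            · rw [← Finset.card_pos, hcard]; exact hp.pos
    exact absurd hVst (not_le.2 h1)
  obtain ⟨μ, hμ, hμt⟩ := hex
  rw [Polynomial.mem_nthRootsFinset hp.pos] at hμ
  have hNZ : NeZero p := ⟨hp.ne_zero⟩
  obtain ⟨j, -, hj⟩ := hεH.eq_pow_of_pow_eq_one hμ
  refine ⟨∑ i ∈ Finset.range p, (m i / p) * (ε ^ j * r) ^ i, ?_⟩
  have hc : algebraMap M H (∑ i ∈ Finset.range p, (m i / p) * (ε ^ j * r) ^ i) =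
      ∑ i ∈ Finset.range p, algebraMap M H (m i / p) * (μ * t) ^ i := by
    rw [map_sum]
    refine Finset.sum_congr rfl fun i _ => ?_
    rw [map_mul, map_pow, map_mul, map_pow, hj]
  have hVμ : V (μ * t) ≤ 1 := by
    rw [map_mul, val_pow_root w hp.ne_zero μ hμ, one_mul]
    exact hVr
  have hdiff : V (∑ i ∈ Finset.range p, algebraMap M H (m i / p) * (μ * t) ^ i - y) < V y := by
    rw [Valuation.map_sub_swap]
    conv_lhs => rw [hm3]
    rw [← Finset.sum_sub_distrib]
    refine Valuation.map_sum_lt _ hyv fun i hi => ?_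
    rw [← mul_sub, map_mul]
    refine lt_of_le_of_lt ?_ (hk i n (hkn i hi))
    refine mul_le_mul_right ?_ _
    rw [← geom_sum₂_mul, map_mul]
    calc V (∑ l ∈ Finset.range i, s ^ l * (μ * t) ^ (i - 1 - l)) * V (s - μ * t)
        ≤ 1 * WithZero.exp (-(n : ℤ)) := by
          refine mul_le_mul' ?_ hμt
          refine Valuation.map_sum_le _ fun l _ => ?_
          rw [map_mul, map_pow, map_pow]
          exact mul_le_one' (pow_le_one' hVs _) (pow_le_one' hVμ _)
      _ = WithZero.exp (-(n : ℤ)) := one_mul _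
  rw [hc]
  exact Valuation.map_eq_of_sub_lt _ hdiff

theorem val_eq_one_of_sub {F : Type} [Field F] {Γ : Type} [LinearOrderedCommGroupWithZero Γ]
    (v : Valuation F Γ) {x : F} (hx : v (x - 1) < 1) : v x = 1 := by
  have h := Valuation.map_eq_of_sub_lt v (x := 1) (y := x) (by rwa [map_one])
  rw [h, map_one]

end val

/-- **W_RM1**. -/
theorem w_rm1 (h1 : N_HEN) : _root_.Pool.Agent.Helper42.PW.W_RM1 := by
  intro p hp M H _ _ _ _ _ ε a s γ hε ha hd hsa hγs y u x hγy hx v
  have hp' : p.Prime := hp.out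
  obtain ⟨w, hw⟩ := exists_above (M := M) (H := H) v
  have := hw
  set V := w.valuation H with hV
  have hs : s ≠ 0 := by
    rintro rfl
    rw [zero_pow hp'.ne_zero] at hsa
    exact ha ((map_eq_zero _).1 hsa.symm)
  have he : v.asIdeal.ramificationIdx' w.asIdeal ≠ 0 :=
    Ideal.IsDedekindDomain.ramificationIdx'_ne_zero_of_liesOver w.asIdeal v.ne_bot
  have hu : ∀ j : ℕ, V ((γ ^ j) (y : H)) = V (y : H) := by
    intro j
    induction j with
    | zero => rfl
    | succ j ih =>
      have h1 : (γ ^ (j + 1)) (y : H) = (γ ^ j) (u : H) * (γ ^ j) (y : H) := by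
        rw [pow_succ, ← map_mul, ← hγy]
        rfl
      rw [h1, map_mul, val_unit w (γ ^ j) u, one_mul, ih]
  have hfin : (∃ c : M, V (algebraMap M H c) = V (y : H)) → (p : ℤ) ∣ ordv v x := by
    rintro ⟨c, hc⟩
    have h1 : V (algebraMap M H x) = V (algebraMap M H c) ^ p := by
      rw [hx, map_prod, Finset.prod_congr rfl (fun j _ => hu j), Finset.prod_const,
        Finset.card_range, hc]
    rw [hV, ← v.valuation_liesOver H w, ← v.valuation_liesOver H w, ← pow_mul, mul_comm _ p,
      pow_mul] at h1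
    have h2 : v.valuation M x = v.valuation M c ^ p :=
      (pow_left_inj₀ zero_le zero_le he).1 h1
    refine ⟨ordv v c, ?_⟩
    simp only [ordv]
    rw [h2, WithZero.log_pow]
    simp
  refine ⟨fun hpv hav => hfin ?_, fun hpw => hfin ?_⟩
  · refine claimA hp' hd ε hε a ha s hsa γ hγs v w ?_ ?_ y y.ne_zero hu
    · have h2 := v.valuation_liesOver H w (p : M)
      rw [hpv, one_pow, map_natCast] at h2
      exact h2.symm
    · simpa [ordv] using hav
  · obtain ⟨c₀, hCl⟩ := hpw
    have hc0 : c₀ ≠ 0 := by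
      rintro rfl
      have h2 := hCl.1
      rw [zero_pow hp'.ne_zero, mul_zero, zero_sub, Valuation.map_neg, map_one] at h2
      exact lt_irrefl _ h2
    have hc0H : algebraMap M H c₀ ≠ 0 := (_root_.map_ne_zero _).2 hc0
    have hsp : (algebraMap M H c₀ * s) ^ p = algebraMap M H (a * c₀ ^ p) := by
      rw [mul_pow, hsa, map_mul, map_pow]
      ring
    refine claimC hp' hd ε hε (algebraMap M H c₀ * s) (mul_ne_zero hc0H hs) γ ?_ w ?_ ?_ y
      y.ne_zero
    · rw [map_mul, AlgEquiv.commutes, hγs]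
      ring
    · have h3 : w.valuation H (algebraMap M H c₀ * s) ^ p = 1 := by
        rw [← map_pow, hsp, ← v.valuation_liesOver H w, val_eq_one_of_sub _ hCl.1, one_pow]
      exact ((pow_eq_one_iff_of_nonneg zero_le hp'.ne_zero).1 h3).le
    · intro N
      obtain ⟨r, hr1, hr2⟩ := h1 p M v _ hCl N
      refine ⟨r, ?_, ?_⟩
      · rw [← v.valuation_liesOver H w, val_eq_one_of_sub _ hr1, one_pow]
      · rw [hsp, ← map_pow, ← map_sub, ← v.valuation_liesOver H w]
        refine (pow_le_pow_left' hr2 _).trans ?_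
        refine pow_le_of_le_one zero_le ?_ he
        rw [← WithZero.exp_zero, WithZero.exp_le_exp]
        omega

end Pool.Agent.Helper58.PW
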